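import Mathlib
import Pool.Agent.H25.NStarAD

set_option autoImplicit false

namespace Pool.Agent.Results.MP_bcfe2b_lc.Large

open Cardinal

/-- The remainder `ℕ*`: nonprincipal ultrafilters, as a subspace of the Stone space `βℕ`. -/
def NStar : Set (Ultrafilter ℕ) := {p | (p : Filter ℕ) ≤ Filter.cofinite}

/-- Almost disjoint families on a space. -/
def AlmostDisjoint {X : Type} [TopologicalSpace X] (𝒜 : Set (Set X)) : Prop :=
  (∀ U ∈ 𝒜, U = interior (closure U) ∧ ¬ IsCompact U) ∧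
    ∀ U ∈ 𝒜, ∀ V ∈ 𝒜, U ≠ V → IsCompact (U ∩ V)

theorem result : ∃ 𝒜 : Set (Set NStar), AlmostDisjoint 𝒜 ∧ #𝒜 = 2 ^ (ℵ₁ : Cardinal.{0}) := by
  obtain ⟨𝒜, h1, h2, h3⟩ := Pool.Agent.H25.NStarAD.main
  exact ⟨𝒜, ⟨h1, h2⟩, h3⟩

end Pool.Agent.Results.MP_bcfe2b_lc.Large
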