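import Mathlib
import Pool.Agent.H25.NStarAD

set_option autoImplicit false

namespace Pool.Agent.Results.MP_bcfe2b_lc.Tower

open Cardinal

/-- The remainder `ℕ*`: nonprincipal ultrafilters, as a subspace of the Stone space `βℕ`. -/
def NStar : Set (Ultrafilter ℕ) := {p | (p : Filter ℕ) ≤ Filter.cofinite}

/-- Almost disjoint families on a space. -/
def AlmostDisjoint {X : Type} [TopologicalSpace X] (𝒜 : Set (Set X)) : Prop :=
  (∀ U ∈ 𝒜, U = interior (closure U) ∧ ¬ IsCompact U) ∧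
    ∀ U ∈ 𝒜, ∀ V ∈ 𝒜, U ≠ V → IsCompact (U ∩ V)

theorem result (κ : Cardinal.{0}) (hκ : ℵ₀ ≤ κ) (𝒜 : Set (Set NStar)) (h : AlmostDisjoint 𝒜)
    (hc : 2 ^ κ < #𝒜) : ∃ y : (Order.succ κ).ord.ToType → Set ℕ,
      ∀ a b, a < b → (y a \ y b).Finite ∧ (y b \ y a).Infinite :=
  Pool.Agent.H25.NStarAD.chain κ hκ 𝒜
    (fun U hU => ⟨(h.1 U hU).1 ▸ isOpen_interior, (h.1 U hU).2⟩) h.2 hc

end Pool.Agent.Results.MP_bcfe2b_lc.Tower
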